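import Mathlib
import Pool.Agent.H21.HeunDef

namespace Pool.Agent.Results.MP_e0279d_an.NotCollinear

open Pool.Agent.H21.Heun Polynomial

theorem rec {l m c : ℂ} {E : ℂ[X]} (h : X ^ 2 * derivative (derivative E) +
      (C (1 - l) * X + C m * (1 - X ^ 2)) * derivative E + (C c + C (m * (l - 1)) * X) * E = 0) :
    (c * E.coeff 0 + m * E.coeff 1 = 0) ∧ ∀ k : ℕ, ((k + 1) * (k + 1 - l) + c) * E.coeff (k + 1) +
      m * (k + 2) * E.coeff (k + 2) + m * (l - 1 - k) * E.coeff k = 0 := by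
  have e : X * (X * derivative (derivative E)) + C (1 - l) * (X * derivative E) +
      C m * derivative E - C m * (X * (X * derivative E)) + C c * E +
      C (m * (l - 1)) * (X * E) = 0 := by linear_combination h
  refine ⟨?_, fun k => ?_⟩
  · have := congrArg (coeff · 0) e
    simp only [coeff_add, coeff_sub, coeff_C_mul, coeff_X_mul_zero, coeff_derivative, coeff_zero] at this
    push_cast at this
    linear_combination this
  · have := congrArg (coeff · (k + 1)) e
    rcases k with _ | k <;>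
    · simp only [coeff_add, coeff_sub, coeff_C_mul, coeff_X_mul, coeff_X_mul_zero, coeff_derivative,
        coeff_zero] at this
      push_cast at this ⊢
      linear_combination this

theorem sol {l : ℕ} {A : ℝ} (hA : 0 < A) (h : HasPolySol 6 l A) : ∃ a : ℕ → ℂ, ∃ m c : ℂ,
    m = A / 12 ∧ c = (1 - A ^ 2) / 144 ∧ m ≠ 0 ∧ a (l - 1) ≠ 0 ∧ a l = 0 ∧ c * a 0 + m * a 1 = 0 ∧
    ∀ k : ℕ, ((k + 1) * (k + 1 - l) + c) * a (k + 1) +
      m * (k + 2) * a (k + 2) + m * (l - 1 - k) * a k = 0 := by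
  obtain ⟨E, h0, h⟩ := h
  obtain ⟨h1, h2⟩ := rec h
  have m0 : ((A / (2 * 6) : ℝ) : ℂ) ≠ 0 := by exact_mod_cast (by positivity)
  have h3 := h2 E.natDegree
  have h4 : E.coeff E.natDegree ≠ 0 := mt leadingCoeff_eq_zero.1 h0
  rw [coeff_eq_zero_of_natDegree_lt (by omega), coeff_eq_zero_of_natDegree_lt (n := _ + 2) (by omega),
    mul_zero, mul_zero, add_zero, zero_add, mul_eq_zero, mul_eq_zero] at h3
  have h5 : l = E.natDegree + 1 := by
    have := (h3.resolve_right h4).resolve_left m0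
    exact_mod_cast (show (l : ℂ) = E.natDegree + 1 by linear_combination this)
  exact ⟨E.coeff, _, _, by push_cast; ring, by push_cast; ring, m0, by rwa [h5],
    coeff_eq_zero_of_natDegree_lt (by omega), h1, h2⟩

theorem result : ∃ ω : ℝ, 0 < ω ∧ ∃ P₁ P₂ P₃ : ℝ × ℝ, IsP ω 1 P₁ ∧ IsP ω 2 P₂ ∧ IsP ω 3 P₃ ∧
    ¬ Collinear ℝ {P₁, P₂, P₃} := by
  have s : √13 ^ 2 = 13 := Real.sq_sqrt (by norm_num)
  have s0 : 0 < √13 := by positivity
  refine ⟨6, by norm_num, (6, 1), (12, √13), (18, 7), ⟨by norm_num, ⟨1, one_ne_zero, ?_⟩, ?_⟩,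
    ⟨by norm_num, ⟨C (√13 : ℂ) + X, ?_, ?_⟩, ?_⟩,
    ⟨by norm_num, ⟨C 7 + C 4 * X + X ^ 2, ?_, ?_⟩, ?_⟩, ?_⟩
  · norm_num
  · intro A hA
    by_contra hc
    have hc := not_le.1 hc
    obtain ⟨a, m, c, rfl, rfl, m0, h1, h2, h3, -⟩ := sol (by linarith) hA
    rw [h2, mul_zero, add_zero, mul_eq_zero] at h3
    have : (1 - A ^ 2) / 144 = 0 := by exact_mod_cast h3.resolve_right h1
    nlinarith
  · rw [add_comm]; exact X_add_C_ne_zero _
  · have s' : (√13 : ℂ) ^ 2 = 13 := by exact_mod_cast s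
    refine Polynomial.funext fun z => ?_
    simp
    linear_combination (-(√13 : ℂ) / 144 + z * (1 / 12 - 1 / 144)) * s'
  · intro A hA
    by_contra hc
    have hc : √13 < A := not_le.1 hc
    obtain ⟨a, m, c, hm, hc', m0, h1, h2, h3, h4⟩ := sol (by linarith) hA
    have h5 := h4 0
    simp only [h2] at h1 h5
    have : (c * (c - 1) - m ^ 2) * a 1 = 0 := by push_cast at h5; linear_combination c * h5 - m * h3
    rw [mul_eq_zero, hm, hc'] at this
    have : (1 - A ^ 2) / 144 * ((1 - A ^ 2) / 144 - 1) - (A / 12) ^ 2 = 0 := by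
      exact_mod_cast this.resolve_right h1
    have : 13 < A ^ 2 := by nlinarith
    nlinarith
  · intro h; simpa using congrArg (coeff · 0) h
  · refine Polynomial.funext fun z => ?_
    simp
    ring
  · intro A hA
    by_contra hc
    have hc : 7 < A := not_le.1 hc
    obtain ⟨a, m, c, hm, hc', m0, h1, h2, h3, h4⟩ := sol (by linarith) hA
    have h5 := h4 0
    have h6 := h4 1
    simp only [h2] at h1 h6
    have : (c * (c - 2) ^ 2 - 4 * m ^ 2 * (c - 1)) * a 2 = 0 := by
      push_cast at h5 h6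
      linear_combination (c * (c - 2) - 2 * m ^ 2) * h6 - m * c * h5 + 2 * m ^ 2 * h3
    rw [mul_eq_zero, hm, hc'] at this
    have h7 : (1 - A ^ 2) / 144 * ((1 - A ^ 2) / 144 - 2) ^ 2 -
        4 * (A / 12) ^ 2 * ((1 - A ^ 2) / 144 - 1) = 0 := by
      exact_mod_cast this.resolve_right h1
    have h8 : 49 < A ^ 2 := by nlinarith
    rw [div_pow A] at h7
    generalize A ^ 2 = t at h7 h8
    nlinarith [mul_pos (sub_pos.2 h8) (show 0 < (t + 23) ^ 2 + 1152 by positivity)]
  · rw [collinear_iff_of_mem (p₀ := (6, 1)) (by simp)]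
    rintro ⟨v, hv⟩
    obtain ⟨r, hr⟩ := hv (12, √13) (by simp)
    obtain ⟨t, ht⟩ := hv (18, 7) (by simp)
    simp only [Prod.ext_iff, vadd_eq_add, Prod.fst_add, Prod.smul_fst, smul_eq_mul, Prod.snd_add,
      Prod.smul_snd] at hr ht
    have : √13 = 4 := by
      linear_combination hr.2 - ht.2 / 2 - (t * v.2) / 12 * hr.1 + (r * v.2) / 12 * ht.1
    rw [this] at s
    norm_num at s

end Pool.Agent.Results.MP_e0279d_an.NotCollinear
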